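import Mathlib

set_option autoImplicit false

namespace Pool.Agent.Lib.MP_01ee34_gt

open Real Finset

/-- among the k directions at angles j * pi / k some one is almost orthogonal to a given plane vector -/
theorem exists_small_dir (k : ℕ) (hk : 0 < k) (a b : ℝ) (hab : a ^ 2 + b ^ 2 ≤ 1) :
    ∃ j : ℕ, j < k ∧ |a * cos (j * π / k) + b * sin (j * π / k)| ≤ π / (2 * k) := by
  have hkR : (0 : ℝ) < k := by exact_mod_cast hk
  set z : ℂ := ⟨a, b⟩ with hz
  set r : ℝ := ‖z‖ with hr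
  set φ : ℝ := Complex.arg z with hφ
  have ha : a = r * cos φ := by
    simp [hr, hφ, hz]
  have hb : b = r * sin φ := by
    simp [hr, hφ, hz]
  have hr0 : 0 ≤ r := norm_nonneg _
  have hr1 : r ≤ 1 := by
    have h2 : r ^ 2 = a ^ 2 + b ^ 2 := by
      rw [hr, Complex.sq_norm, Complex.normSq_apply]
      simp [hz]; ring
    nlinarith
  set t : ℝ := (φ + π / 2) * k / π with ht
  set J : ℤ := round t with hJ
  have hJt : |t - J| ≤ 1 / 2 := abs_sub_round t
  have hkZ : (0 : ℤ) < k := by exact_mod_cast hk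
  set j : ℤ := J % k with hj
  set q : ℤ := J / k with hq
  have hj0 : 0 ≤ j := Int.emod_nonneg _ (ne_of_gt hkZ)
  have hjk : j < k := Int.emod_lt_of_pos _ hkZ
  have hJq : J = j + k * q := by
    rw [hj, hq]; exact (Int.emod_add_mul_ediv J k).symm
  refine ⟨j.toNat, by omega, ?_⟩
  have hcast : ((j.toNat : ℕ) : ℝ) = (j : ℝ) := by
    have : ((j.toNat : ℕ) : ℤ) = j := Int.toNat_of_nonneg hj0
    exact_mod_cast this
  rw [hcast]
  have hjR : (j : ℝ) = J - k * q := by
    have : (J : ℝ) = j + k * q := by exact_mod_cast hJq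
    linarith
  have key : a * cos (j * π / k) + b * sin (j * π / k) = r * cos (j * π / k - φ) := by
    rw [cos_sub, ha, hb]; ring
  rw [key]
  set δ : ℝ := (J - t) * π / k with hδ
  have hang : (j : ℝ) * π / k - φ = (δ + π / 2) - q * π := by
    rw [hδ, ht, hjR]; field_simp; ring
  rw [hang, abs_mul, abs_of_nonneg hr0]
  have h1 : |cos ((δ + π / 2) - q * π)| = |sin δ| := by
    rw [Real.cos_sub_int_mul_pi, abs_mul, cos_add_pi_div_two]
    simp [abs_zpow]
  rw [h1]
  have h2 : |sin δ| ≤ |δ| := Real.abs_sin_le_abs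
  have h3 : |δ| ≤ π / (2 * k) := by
    rw [hδ, abs_div, abs_mul, abs_of_pos pi_pos, abs_of_pos hkR, abs_sub_comm]
    rw [div_le_div_iff₀ hkR (by positivity)]
    have := pi_pos
    nlinarith [mul_le_mul_of_nonneg_right hJt (le_of_lt (mul_pos pi_pos hkR))]
  nlinarith [abs_nonneg (sin δ)]

abbrev E (d : ℕ) := EuclideanSpace ℝ (Fin (d + 1))

theorem sum_sq_of_norm_one {d : ℕ} (x : E d) (hx : ‖x‖ = 1) : ∑ i, x i ^ 2 = 1 := by
  have := EuclideanSpace.real_norm_sq_eq x
  rw [hx] at this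
  linarith

theorem iso_coord {d : ℕ} (ρ : E d ≃ₗᵢ[ℝ] E d) (x : E d) (j : Fin (d + 1)) :
    ρ x j = ∑ t, x t * ρ.symm (EuclideanSpace.single j 1) t := by
  have h1 : ρ x j = inner ℝ (EuclideanSpace.single j (1 : ℝ)) (ρ x) := by
    rw [EuclideanSpace.inner_single_left]; simp
  have h2 : inner ℝ (EuclideanSpace.single j (1 : ℝ)) (ρ x)
      = inner ℝ (ρ.symm (EuclideanSpace.single j (1 : ℝ))) x := by
    rw [← ρ.inner_map_map (ρ.symm _) x]; simp
  rw [h1, h2, PiLp.inner_apply]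
  simp

/-- the point at angle θ on the great circle of the first two coordinates -/
noncomputable def circPt (d : ℕ) (hd : 1 ≤ d) (θ : ℝ) : E d :=
  EuclideanSpace.single 0 (cos θ) + EuclideanSpace.single ⟨1, by omega⟩ (sin θ)

theorem one_ne_zero' (d : ℕ) (hd : 1 ≤ d) : (⟨1, by omega⟩ : Fin (d + 1)) ≠ 0 := by
  intro h
  have := congrArg Fin.val h
  simp at this

theorem sum_circPt (d : ℕ) (hd : 1 ≤ d) (θ : ℝ) (n : Fin (d + 1) → ℝ) :
    ∑ t, circPt d hd θ t * n t = n 0 * cos θ + n ⟨1, by omega⟩ * sin θ := by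
  simp [circPt, mul_add, Finset.sum_add_distrib, mul_comm]

theorem circPt_zero (d : ℕ) (hd : 1 ≤ d) (θ : ℝ) : circPt d hd θ 0 = cos θ := by
  have := one_ne_zero' d hd
  simp [circPt, this.symm]

theorem circPt_one (d : ℕ) (hd : 1 ≤ d) (θ : ℝ) : circPt d hd θ ⟨1, by omega⟩ = sin θ := by
  have := one_ne_zero' d hd
  simp [circPt, this]

theorem norm_circPt (d : ℕ) (hd : 1 ≤ d) (θ : ℝ) : ‖circPt d hd θ‖ = 1 := by
  have h := EuclideanSpace.real_norm_sq_eq (circPt d hd θ)
  have h2 : ∑ i, circPt d hd θ i ^ 2 = 1 := by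
    have := sum_circPt d hd θ (fun t => circPt d hd θ t)
    simp only [circPt_zero, circPt_one] at this
    simp only [sq]
    rw [this]
    nlinarith [sin_sq_add_cos_sq θ]
  rw [h2] at h
  have := norm_nonneg (circPt d hd θ)
  nlinarith

theorem two_coord_le {d : ℕ} (hd : 1 ≤ d) (n : E d) (hn : ‖n‖ = 1) :
    n 0 ^ 2 + n ⟨1, by omega⟩ ^ 2 ≤ 1 := by
  have h := sum_sq_of_norm_one n hn
  have h2 : ∑ i ∈ ({0, ⟨1, by omega⟩} : Finset (Fin (d + 1))), n i ^ 2 ≤ ∑ i, n i ^ 2 :=
    Finset.sum_le_sum_of_subset_of_nonneg (Finset.subset_univ _) (fun i _ _ => sq_nonneg _)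
  rw [Finset.sum_pair (one_ne_zero' d hd).symm] at h2
  linarith

/-- k points on a great circle that no isometry moves into a double cap -/
theorem exists_circle_set (d k : ℕ) (hd : 1 ≤ d) (hk : 0 < k) (c : ℝ) (hc : π / (2 * k) < c)
    (j : Fin (d + 1)) :
    ∃ A : Finset (E d), (A : Set (E d)) ⊆ Metric.sphere 0 1 ∧ A.card = k ∧
      ∀ ρ : E d ≃ₗᵢ[ℝ] E d, ∃ a ∈ A, |ρ a j| < c := by
  classical
  have hkR : (0 : ℝ) < k := by exact_mod_cast hk
  refine ⟨(Finset.range k).image (fun t : ℕ => circPt d hd (t * π / k)), ?_, ?_, ?_⟩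
  · intro x hx
    simp only [coe_image, Set.mem_image] at hx
    obtain ⟨t, -, rfl⟩ := hx
    simp [norm_circPt]
  · rw [Finset.card_image_of_injOn, Finset.card_range]
    intro s hs t ht hst
    have hs' : (s : ℝ) < k := by exact_mod_cast (by simpa using hs)
    have ht' : (t : ℝ) < k := by exact_mod_cast (by simpa using ht)
    have h0 : cos (s * π / k) = cos (t * π / k) := by
      have := congrArg (fun x : E d => x 0) hst
      simpa only [circPt_zero] using this
    have mem : ∀ u : ℕ, (u : ℝ) < k → (u * π / k) ∈ Set.Icc 0 π := by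
      intro u hu
      refine ⟨by positivity, ?_⟩
      rw [div_le_iff₀ hkR]
      nlinarith [pi_pos]
    have h1 := injOn_cos (mem s hs') (mem t ht') h0
    have h2 : (s : ℝ) = t := by
      have := pi_pos
      field_simp at h1
      linarith
    exact_mod_cast h2
  · intro ρ
    set n : E d := ρ.symm (EuclideanSpace.single j 1) with hn
    have hn1 : ‖n‖ = 1 := by simp [hn]
    obtain ⟨t, ht, hle⟩ := exists_small_dir k hk (n 0) (n ⟨1, by omega⟩) (two_coord_le hd n hn1)
    refine ⟨circPt d hd (t * π / k), Finset.mem_image.2 ⟨t, by simpa using ht, rfl⟩, ?_⟩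
    rw [iso_coord, ← hn, sum_circPt]
    linarith

/-- k orthonormal points that no isometry moves into a thin neighbourhood of a great subsphere -/
theorem exists_ortho_set (d k l : ℕ) (hk : k ≤ d + 1) (hl : l ≤ d + 1) (hkl : k + l = d + 2)
    (c : ℝ) (hc : c ^ 2 * k * l < 1) :
    ∃ A : Finset (E d), (A : Set (E d)) ⊆ Metric.sphere 0 1 ∧ A.card = k ∧
      ∀ ρ : E d ≃ₗᵢ[ℝ] E d, ∃ a ∈ A, ∃ j : Fin (d + 1), j.val < l ∧ c < |ρ a j| := by
  classical
  set K : Finset (Fin (d + 1)) := Finset.univ.filter (fun t => t.val < k) with hK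
  set L : Finset (Fin (d + 1)) := Finset.univ.filter (fun t => t.val < l) with hL
  have hKc : K.card = k := by
    rw [hK, Fin.card_filter_val_lt]; omega
  have hLc : L.card = l := by
    rw [hL, Fin.card_filter_val_lt]; omega
  refine ⟨K.image (fun t => (EuclideanSpace.single t (1 : ℝ) : E d)), ?_, ?_, ?_⟩
  · intro x hx
    simp only [coe_image, Set.mem_image] at hx
    obtain ⟨t, -, rfl⟩ := hx
    simp
  · rw [Finset.card_image_of_injOn, hKc]
    intro s _ t _ hst
    by_contra hne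
    have := congrArg (fun x : E d => x s) hst
    simp [hne] at this
  · intro ρ
    by_contra hcon
    push Not at hcon
    set M : Fin (d + 1) → Fin (d + 1) → ℝ := fun t j => ρ (EuclideanSpace.single t 1) j with hM
    have hrow : ∀ t, ∑ j, M t j ^ 2 = 1 := fun t =>
      sum_sq_of_norm_one (ρ (EuclideanSpace.single t 1)) (by simp)
    have hcol : ∀ j, ∑ t, M t j ^ 2 = 1 := by
      intro j
      have h := sum_sq_of_norm_one (ρ.symm (EuclideanSpace.single j 1)) (by simp)
      rw [← h]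
      refine Finset.sum_congr rfl (fun t _ => ?_)
      simp only [hM]
      rw [iso_coord]
      simp
    have hsmall : ∀ t ∈ K, ∀ j ∈ L, M t j ^ 2 ≤ c ^ 2 := by
      intro t ht j hj
      have := hcon _ (Finset.mem_image.2 ⟨t, ht, rfl⟩) j (by simpa [hL] using hj)
      exact sq_le_sq' (by linarith [neg_abs_le (M t j)]) (by linarith [le_abs_self (M t j)])
    have h1 : ∑ t, ∑ j ∈ L, M t j ^ 2 = l := by
      rw [Finset.sum_comm]
      simp [hcol, hLc]
    have h2 : ∑ t ∈ K, ∑ j ∈ L, M t j ^ 2 ≤ c ^ 2 * k * l := by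
      calc ∑ t ∈ K, ∑ j ∈ L, M t j ^ 2 ≤ ∑ t ∈ K, ∑ j ∈ L, c ^ 2 :=
            Finset.sum_le_sum (fun t ht => Finset.sum_le_sum (fun j hj => hsmall t ht j hj))
        _ = c ^ 2 * k * l := by simp [hKc, hLc]; ring
    have h3 : ∑ t ∈ Kᶜ, ∑ j ∈ L, M t j ^ 2 ≤ ∑ t ∈ Kᶜ, (1 : ℝ) := by
      refine Finset.sum_le_sum (fun t _ => ?_)
      rw [← hrow t]
      exact Finset.sum_le_sum_of_subset_of_nonneg (Finset.subset_univ _) (fun i _ _ => sq_nonneg _)
    have h4 : ∑ t ∈ Kᶜ, (1 : ℝ) = l - 1 := by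
      rw [Finset.sum_const, Finset.card_compl, hKc]
      simp only [Fintype.card_fin, nsmul_eq_mul, mul_one]
      rw [Nat.cast_sub hk]
      have : (k : ℝ) + l = d + 2 := by exact_mod_cast hkl
      push_cast; linarith
    have h5 := Finset.sum_add_sum_compl K (fun t => ∑ j ∈ L, M t j ^ 2)
    linarith

theorem main (d m : ℕ) (hm : 2 ≤ m) (hd : 7 * m ≤ 2 * d + 11) :
    ∃ F : Fin m → Set (E d),
      (∀ i, IsClosed (F i)) ∧ (⋃ i, F i) = Metric.sphere 0 1 ∧
      ∀ i, ∃ A : Finset (E d), (A : Set (E d)) ⊆ Metric.sphere 0 1 ∧ (A.card : ℤ) = d - m + 3 ∧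
        ∀ ρ : E d ≃ₗᵢ[ℝ] E d, ¬ (ρ '' (A : Set (E d)) ⊆ F i) := by
  obtain ⟨l, rfl⟩ : ∃ l, m = l + 1 := ⟨m - 1, by omega⟩
  obtain ⟨k, hk⟩ : ∃ k, k + l = d + 2 := ⟨d + 2 - l, by omega⟩
  have hk0 : 0 < k := by omega
  have hkR : (0 : ℝ) < k := by exact_mod_cast hk0
  set c : ℝ := 79 / (50 * k) with hc
  have hc1 : π / (2 * k) < c := by
    rw [hc, div_lt_div_iff₀ (by positivity) (by positivity)]
    nlinarith [pi_lt_d2]
  have hc2 : c ^ 2 * k * l < 1 := by
    have h5 : (5 : ℝ) * l ≤ 2 * k := by exact_mod_cast (by omega : 5 * l ≤ 2 * k)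
    have : c ^ 2 * k * l = 6241 * l / (2500 * k) := by rw [hc]; field_simp; ring
    rw [this, div_lt_one (by positivity)]
    linarith
  have hld : l < d + 1 := by omega
  have hcard : ((k : ℕ) : ℤ) = d - (l + 1 : ℕ) + 3 := by push_cast; omega
  let ι : Fin (l + 1) → Fin (d + 1) := fun i => ⟨i.val, by omega⟩
  refine ⟨fun i => if i.val < l then Metric.sphere 0 1 ∩ {x | c ≤ |x (ι i)|}
    else Metric.sphere 0 1 ∩ ⋂ j : Fin (d + 1), ⋂ _ : j.val < l, {x | |x j| ≤ c}, ?_, ?_, ?_⟩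
  · intro i
    dsimp only
    split_ifs
    · exact Metric.isClosed_sphere.inter (isClosed_le continuous_const (by fun_prop))
    · exact Metric.isClosed_sphere.inter
        (isClosed_iInter fun j => isClosed_iInter fun _ => isClosed_le (by fun_prop) continuous_const)
  · ext x
    simp only [Set.mem_iUnion]
    constructor
    · rintro ⟨i, hi⟩
      split_ifs at hi
      · exact hi.1
      · exact hi.1
    · intro hx
      by_cases h : ∀ j : Fin (d + 1), j.val < l → |x j| ≤ c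
      · refine ⟨Fin.last l, ?_⟩
        simp only [Fin.val_last, lt_self_iff_false, if_false]
        exact ⟨hx, by simpa using h⟩
      · push Not at h
        obtain ⟨j, hj, hjc⟩ := h
        refine ⟨⟨j.val, by omega⟩, ?_⟩
        simp only [hj, if_true]
        exact ⟨hx, le_of_lt hjc⟩
  · intro i
    by_cases hi : i.val < l
    · obtain ⟨A, hA, hAc, hρ⟩ := exists_circle_set d k (by omega) hk0 c hc1 (ι i)
      refine ⟨A, hA, by rw [hAc]; exact hcard, fun ρ hsub => ?_⟩
      obtain ⟨a, ha, hlt⟩ := hρ ρ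
      have := hsub ⟨a, ha, rfl⟩
      simp only [hi, if_true] at this
      exact absurd this.2 (not_le.2 hlt)
    · obtain ⟨A, hA, hAc, hρ⟩ := exists_ortho_set d k l (by omega) (by omega) hk c hc2
      refine ⟨A, hA, by rw [hAc]; exact hcard, fun ρ hsub => ?_⟩
      obtain ⟨a, ha, j, hj, hlt⟩ := hρ ρ
      have := hsub ⟨a, ha, rfl⟩
      simp only [hi, if_false] at this
      have h2 := this.2
      simp only [Set.mem_iInter, Set.mem_ofPred_eq] at h2
      exact absurd (h2 j hj) (not_le.2 hlt)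

end Pool.Agent.Lib.MP_01ee34_gt
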