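import Mathlib

set_option autoImplicit false

namespace Pool.Agent.Lib.MP_01ee34_gt.Common

open Finset

abbrev E (d : ℕ) := EuclideanSpace ℝ (Fin (d + 1))

/-- coordinate number t, zero outside the range -/
noncomputable def co {d : ℕ} (z : E d) (t : ℕ) : ℝ := if h : t < d + 1 then z ⟨t, h⟩ else 0

theorem co_lin {d : ℕ} (u v : E d) (c s : ℝ) (t : ℕ) :
    co (c • u + s • v) t = c * co u t + s * co v t := by
  unfold co
  split_ifs with h
  · simp
  · simp

theorem continuous_co {d : ℕ} (t : ℕ) : Continuous (fun z : E d => co z t) := by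
  unfold co
  split_ifs with h
  · fun_prop
  · exact continuous_const

/-- the odd cubic forms -/
noncomputable def g {d : ℕ} (p j : ℕ) (z : E d) : ℝ :=
  if j = 0 then 0 else
    co z (p + j - 1) ^ 3 - (if j < p then co z (j - 1) else 0) * ∑ t ∈ range p, co z t ^ 2

theorem continuous_g {d : ℕ} (p j : ℕ) : Continuous (fun z : E d => g p j z) := by
  unfold g
  split_ifs with h h2
  · exact continuous_const
  · exact ((continuous_co _).pow 3).sub ((continuous_co _).mul
      (continuous_finsetSum _ (fun t _ => (continuous_co t).pow 2)))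
  · exact ((continuous_co _).pow 3).sub (continuous_const.mul
      (continuous_finsetSum _ (fun t _ => (continuous_co t).pow 2)))

theorem sum_sq_lin {d : ℕ} (p : ℕ) (u v : E d) (c s : ℝ) :
    ∑ t ∈ range p, co (c • u + s • v) t ^ 2 =
      c ^ 2 * (∑ t ∈ range p, co u t ^ 2) + 2 * c * s * (∑ t ∈ range p, co u t * co v t)
        + s ^ 2 * ∑ t ∈ range p, co v t ^ 2 := by
  rw [Finset.mul_sum, Finset.mul_sum, Finset.mul_sum, ← Finset.sum_add_distrib,
    ← Finset.sum_add_distrib]
  refine Finset.sum_congr rfl (fun t _ => ?_)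
  rw [co_lin]; ring

theorem g_cubic {d : ℕ} (p j : ℕ) (u v : E d) :
    ∃ p0 p1 p2 p3 : ℝ, ∀ c s : ℝ,
      g p j (c • u + s • v) = p0 * c ^ 3 + p1 * c ^ 2 * s + p2 * c * s ^ 2 + p3 * s ^ 3 := by
  by_cases h : j = 0
  · exact ⟨0, 0, 0, 0, fun c s => by simp [g, h]⟩
  set A := ∑ t ∈ range p, co u t ^ 2 with hA
  set B := ∑ t ∈ range p, co u t * co v t with hB
  set C := ∑ t ∈ range p, co v t ^ 2 with hC
  set a := co u (p + j - 1)
  set b := co v (p + j - 1)
  by_cases h2 : j < p
  · set a' := co u (j - 1)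
    set b' := co v (j - 1)
    refine ⟨a ^ 3 - a' * A, 3 * a ^ 2 * b - 2 * a' * B - b' * A,
      3 * a * b ^ 2 - a' * C - 2 * b' * B, b ^ 3 - b' * C, fun c s => ?_⟩
    simp only [g, h, h2, if_true, if_false]
    rw [sum_sq_lin, co_lin, co_lin]
    ring
  · refine ⟨a ^ 3, 3 * a ^ 2 * b, 3 * a * b ^ 2, b ^ 3, fun c s => ?_⟩
    simp only [g, h, h2, if_false]
    rw [co_lin]
    ring

/-- a binary cubic that is nonnegative at the five points vanishes -/
theorem cubic_zero (φ : ℝ → ℝ → ℝ) (p0 p1 p2 p3 : ℝ)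
    (h : ∀ c s, φ c s = p0 * c ^ 3 + p1 * c ^ 2 * s + p2 * c * s ^ 2 + p3 * s ^ 3)
    (h1 : 0 ≤ φ 1 0) (h2 : 0 ≤ φ (3 / 5) (4 / 5)) (h3 : 0 ≤ φ (3 / 5) (-4 / 5))
    (h4 : 0 ≤ φ (-4 / 5) (3 / 5)) (h5 : 0 ≤ φ (-4 / 5) (-3 / 5)) (c s : ℝ) : φ c s = 0 := by
  rw [h] at h1 h2 h3 h4 h5
  norm_num at h1 h2 h3 h4 h5
  have e0 : p0 = 0 := by linarith
  have e2 : p2 = 0 := by linarith
  have e1 : p1 = 0 := by linarith
  have e3 : p3 = 0 := by linarith
  rw [h, e0, e1, e2, e3]; ring

/-- a cube of a linear form is not a nonzero linear form times a definite quadratic form -/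
theorem cube_lemma (a b a' b' A B C : ℝ)
    (hQ : ∀ c s : ℝ, c ^ 2 * A + 2 * c * s * B + s ^ 2 * C = 0 → c = 0 ∧ s = 0)
    (h : ∀ c s : ℝ, (c * a + s * b) ^ 3 = (c * a' + s * b') * (c ^ 2 * A + 2 * c * s * B + s ^ 2 * C)) :
    a' = 0 ∧ b' = 0 := by
  have e0 := h 1 0
  have e3 := h 0 1
  have e1 := h 1 1
  have e2 := h 1 (-1)
  by_cases hab : a = 0 ∧ b = 0
  · obtain ⟨ha, hb⟩ := hab
    have h0 := h a' b'
    rw [ha, hb] at h0
    have h1 : (a' * a' + b' * b') * (a' ^ 2 * A + 2 * a' * b' * B + b' ^ 2 * C) = 0 := by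
      rw [← h0]; ring
    rcases mul_eq_zero.1 h1 with h2 | h2
    · constructor <;> nlinarith [mul_self_nonneg a', mul_self_nonneg b']
    · exact hQ a' b' h2
  · have hQ0 : b ^ 2 * A + 2 * b * (-a) * B + (-a) ^ 2 * C ≠ 0 := by
      intro h0
      obtain ⟨h1, h2⟩ := hQ b (-a) h0
      exact hab ⟨by linarith, h1⟩
    have hL0 : b * a' + (-a) * b' = 0 := by
      have h0 := h b (-a)
      have h1 : (b * a' + (-a) * b') * (b ^ 2 * A + 2 * b * (-a) * B + (-a) ^ 2 * C) = 0 := by
        rw [← h0]; ring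
      exact (mul_eq_zero.1 h1).resolve_right hQ0
    have c0 : a ^ 3 = a' * A := by linarith
    have c3 : b ^ 3 = b' * C := by linarith
    have c1 : 3 * a ^ 2 * b = 2 * a' * B + b' * A := by linarith
    have c2 : 3 * a * b ^ 2 = a' * C + 2 * b' * B := by linarith
    have hL1 : a * a' + b * b' = 0 := by
      have h1 : (a * a' + b * b') * (b ^ 2 * A + 2 * b * (-a) * B + (-a) ^ 2 * C) = 0 := by
        linear_combination (-3 * a * b ^ 2) * c0 + (-(b ^ 3) + 2 * a ^ 2 * b) * c1
          + (2 * a * b ^ 2 - a ^ 3) * c2 + (-3 * a ^ 2 * b) * c3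
          - (2 * (A * b * a + B * (b * b - a * a) - C * a * b)) * hL0
      exact (mul_eq_zero.1 h1).resolve_right hQ0
    have hn : a ^ 2 + b ^ 2 ≠ 0 := by
      intro h0
      exact hab ⟨by nlinarith [sq_nonneg a, sq_nonneg b], by nlinarith [sq_nonneg a, sq_nonneg b]⟩
    constructor
    · have : (a ^ 2 + b ^ 2) * a' = 0 := by linear_combination a * hL1 + b * hL0
      exact (mul_eq_zero.1 this).resolve_left hn
    · have : (a ^ 2 + b ^ 2) * b' = 0 := by linear_combination b * hL1 - a * hL0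
      exact (mul_eq_zero.1 this).resolve_left hn

theorem eq_zero_of_co {d : ℕ} (z : E d) (h : ∀ t, t < d + 1 → co z t = 0) : z = 0 := by
  ext t
  have := h t.val t.isLt
  simpa [co, t.isLt] using this

/-- the common zero set of the forms contains no plane -/
theorem no_plane {d : ℕ} (p m : ℕ) (hp : p + m = d + 2) (hpm : p ≤ m) (hp1 : 1 ≤ p) (u v : E d)
    (hind : ∀ c s : ℝ, c • u + s • v = 0 → c = 0 ∧ s = 0)
    (h : ∀ j, j < m → ∀ c s : ℝ, g p j (c • u + s • v) = 0) : False := by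
  set A := ∑ t ∈ range p, co u t ^ 2 with hA
  set B := ∑ t ∈ range p, co u t * co v t with hB
  set C := ∑ t ∈ range p, co v t ^ 2 with hC
  have hy : ∀ c s : ℝ, (∀ t, t + 1 < p → co (c • u + s • v) t = 0) →
      ∀ t, p ≤ t → t < d + 1 → co (c • u + s • v) t = 0 := by
    intro c s hx t ht htd
    have h1 := h (t + 1 - p) (by omega) c s
    have hne : t + 1 - p ≠ 0 := by omega
    have hidx : p + (t + 1 - p) - 1 = t := by omega
    simp only [g, hne, if_false, hidx] at h1
    have h2 : (if t + 1 - p < p then co (c • u + s • v) (t + 1 - p - 1) else 0) = 0 := by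
      split_ifs with h3
      · exact hx _ (by omega)
      · rfl
    rw [h2, zero_mul, sub_zero] at h1
    exact pow_eq_zero_iff (by norm_num) |>.1 h1
  have hQ : ∀ c s : ℝ, c ^ 2 * A + 2 * c * s * B + s ^ 2 * C = 0 → c = 0 ∧ s = 0 := by
    intro c s h0
    rw [← sum_sq_lin] at h0
    have h1 : ∀ t, t < p → co (c • u + s • v) t = 0 := by
      intro t ht
      have := (Finset.sum_eq_zero_iff_of_nonneg (fun t _ => sq_nonneg _)).1 h0 t
        (Finset.mem_range.2 ht)
      exact pow_eq_zero_iff (by norm_num) |>.1 this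
    refine hind c s (eq_zero_of_co _ (fun t ht => ?_))
    by_cases h2 : t < p
    · exact h1 t h2
    · exact hy c s (fun t ht => h1 t (by omega)) t (by omega) ht
  have hx : ∀ t, t + 1 < p → co u t = 0 ∧ co v t = 0 := by
    intro t ht
    refine cube_lemma (co u (p + t)) (co v (p + t)) (co u t) (co v t) A B C hQ (fun c s => ?_)
    have h1 := h (t + 1) (by omega) c s
    have hidx : p + (t + 1) - 1 = p + t := by omega
    simp only [g, Nat.succ_ne_zero, if_false, ht, if_true, hidx, Nat.add_sub_cancel] at h1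
    rw [sum_sq_lin, co_lin, co_lin] at h1
    linarith
  have hx' : ∀ c s : ℝ, ∀ t, t + 1 < p → co (c • u + s • v) t = 0 := by
    intro c s t ht
    rw [co_lin, (hx t ht).1, (hx t ht).2]; ring
  have key : ∀ c s : ℝ, c * co u (p - 1) + s * co v (p - 1) = 0 → c = 0 ∧ s = 0 := by
    intro c s h0
    refine hind c s (eq_zero_of_co _ (fun t ht => ?_))
    by_cases h2 : t + 1 < p
    · exact hx' c s t h2
    · by_cases h3 : t = p - 1
      · rw [co_lin, h3]; exact h0
      · exact hy c s (hx' c s) t (by omega) ht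
  obtain ⟨h1, h2⟩ := key (co v (p - 1)) (-co u (p - 1)) (by ring)
  have h3 := key 1 0 (by rw [neg_eq_zero.1 h2]; ring)
  exact one_ne_zero h3.1

/-- the first two unit vectors -/
noncomputable def e0 (d : ℕ) : E d := EuclideanSpace.single 0 1

noncomputable def e1 (d : ℕ) (hd : 1 ≤ d) : E d := EuclideanSpace.single ⟨1, by omega⟩ 1

theorem ne01 (d : ℕ) (hd : 1 ≤ d) : (⟨1, by omega⟩ : Fin (d + 1)) ≠ 0 := by
  intro h
  have := congrArg Fin.val h
  simp at this

theorem pt_zero (d : ℕ) (hd : 1 ≤ d) (c s : ℝ) : (c • e0 d + s • e1 d hd) 0 = c := by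
  have := ne01 d hd
  simp [e0, e1, this.symm]

theorem pt_one (d : ℕ) (hd : 1 ≤ d) (c s : ℝ) : (c • e0 d + s • e1 d hd) ⟨1, by omega⟩ = s := by
  have := ne01 d hd
  simp [e0, e1, this]

theorem pt_norm (d : ℕ) (hd : 1 ≤ d) (c s : ℝ) (h : c ^ 2 + s ^ 2 = 1) :
    ‖c • e0 d + s • e1 d hd‖ = 1 := by
  have hne := ne01 d hd
  have h0 : inner ℝ (e0 d) (e1 d hd) = 0 := by
    simp [e0, e1, EuclideanSpace.inner_single_left, hne.symm]
  have n0 : ‖e0 d‖ = 1 := by simp [e0]
  have n1 : ‖e1 d hd‖ = 1 := by simp [e1]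
  have h2 : ‖c • e0 d + s • e1 d hd‖ ^ 2 = 1 := by
    rw [norm_add_sq_real, inner_smul_left, inner_smul_right, h0, norm_smul, norm_smul, n0, n1]
    simp only [Real.norm_eq_abs, mul_one, sq_abs, mul_zero, add_zero]
    exact h
  have := norm_nonneg (c • e0 d + s • e1 d hd)
  nlinarith

theorem sphere_infinite (d : ℕ) (hd : 1 ≤ d) : (Metric.sphere (0 : E d) 1).Infinite := by
  have hinj : Set.InjOn (fun c : ℝ => c • e0 d + Real.sqrt (1 - c ^ 2) • e1 d hd)
      (Set.Icc 0 1) := by
    intro x _ y _ hxy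
    have := congrArg (fun z : E d => z 0) hxy
    simpa only [pt_zero] using this
  have hinf := (Set.Icc_infinite (show (0 : ℝ) < 1 by norm_num)).image hinj
  refine hinf.mono ?_
  rintro z ⟨c, hc, rfl⟩
  rw [mem_sphere_zero_iff_norm]
  refine pt_norm d hd _ _ ?_
  rw [Real.sq_sqrt (by nlinarith [hc.1, hc.2])]
  ring

theorem main (d m : ℕ) (h1 : m + 2 ≤ d) (h2 : d + 2 ≤ 2 * m) :
    ∃ F : Fin m → Set (E d),
      (∀ i, IsClosed (F i)) ∧ (⋃ i, F i) = Metric.sphere 0 1 ∧
      ∃ A : Finset (E d), (A : Set (E d)) ⊆ Metric.sphere 0 1 ∧ (A.card : ℤ) = d - m + 3 ∧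
        ∀ i, ∀ ρ : E d ≃ₗᵢ[ℝ] E d, ¬ (ρ '' (A : Set (E d)) ⊆ F i) := by
  classical
  have hd : 1 ≤ d := by omega
  set p := d + 2 - m with hp
  have hm : 0 < m := by omega
  refine ⟨fun i => {z | z ∈ Metric.sphere (0 : E d) 1 ∧ ∀ j : Fin m, g p j z ≤ g p i z},
    fun i => ?_, ?_, ?_⟩
  · have : {z : E d | z ∈ Metric.sphere (0 : E d) 1 ∧ ∀ j : Fin m, g p j z ≤ g p i z}
        = Metric.sphere (0 : E d) 1 ∩ ⋂ j : Fin m, {z | g p j z ≤ g p i z} := by
      ext z; simp
    beta_reduce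
    rw [this]
    exact Metric.isClosed_sphere.inter
      (isClosed_iInter fun j => isClosed_le (continuous_g p j) (continuous_g p i))
  · ext z
    simp only [Set.mem_iUnion, Set.mem_ofPred_eq]
    constructor
    · rintro ⟨i, hi, -⟩; exact hi
    · intro hz
      have : Nonempty (Fin m) := ⟨⟨0, hm⟩⟩
      obtain ⟨i, hi⟩ := Finite.exists_max (fun j : Fin m => g p j z)
      exact ⟨i, hz, hi⟩
  · set q : ℝ → ℝ → E d := fun c s => c • e0 d + s • e1 d hd with hq
    set P : Set (E d) := {q 1 0, q (3 / 5) (4 / 5), q (3 / 5) (-4 / 5), q (-4 / 5) (3 / 5),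
      q (-4 / 5) (-3 / 5)} with hP
    have hPfin : P.Finite := by simp [hP]
    have hPs : P ⊆ Metric.sphere 0 1 := by
      intro z hz
      rw [mem_sphere_zero_iff_norm]
      simp only [hP, Set.mem_insert_iff, Set.mem_singleton_iff] at hz
      rcases hz with rfl | rfl | rfl | rfl | rfl <;> exact pt_norm d hd _ _ (by norm_num)
    have hPc : P.ncard ≤ p + 1 := by
      have : P.ncard ≤ 5 := by
        refine (Set.ncard_insert_le _ _).trans ?_
        refine (Nat.add_le_add_right (Set.ncard_insert_le _ _) 1).trans ?_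
        refine (Nat.add_le_add_right (Nat.add_le_add_right (Set.ncard_insert_le _ _) 1) 1).trans ?_
        refine (Nat.add_le_add_right (Nat.add_le_add_right (Nat.add_le_add_right
          (Set.ncard_insert_le _ _) 1) 1) 1).trans ?_
        simp
      omega
    obtain ⟨S, hPS, hSs, hSc⟩ :=
      (sphere_infinite d hd).exists_superset_ncard_eq hPs hPfin hPc
    have hSfin : S.Finite := Set.finite_of_ncard_ne_zero (by omega)
    refine ⟨hSfin.toFinset, by simpa using hSs, ?_, ?_⟩
    · rw [← Set.ncard_eq_toFinset_card S hSfin, hSc]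
      push_cast
      omega
    · intro i ρ hsub
      rw [Set.Finite.coe_toFinset] at hsub
      set u := ρ (e0 d) with hu
      set v := ρ (e1 d hd) with hv
      have hρ : ∀ c s : ℝ, ρ (q c s) = c • u + s • v := by
        intro c s; simp [hq, hu, hv]
      have hmem : ∀ c s : ℝ, q c s ∈ P → ∀ j : Fin m,
          0 ≤ g p i (c • u + s • v) - g p j (c • u + s • v) := by
        intro c s hcs j
        have := (hsub ⟨q c s, hPS hcs, rfl⟩).2 j
        rw [hρ] at this
        linarith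
      have hdiff : ∀ j : Fin m, ∀ c s : ℝ,
          g p i (c • u + s • v) - g p j (c • u + s • v) = 0 := by
        intro j
        obtain ⟨a0, a1, a2, a3, ha⟩ := g_cubic p i u v
        obtain ⟨b0, b1, b2, b3, hb⟩ := g_cubic p j u v
        refine cubic_zero (fun c s => g p i (c • u + s • v) - g p j (c • u + s • v))
          (a0 - b0) (a1 - b1) (a2 - b2) (a3 - b3) (fun c s => by rw [ha, hb]; ring)
          (hmem _ _ (by simp [hP]) j) (hmem _ _ (by simp [hP]) j) (hmem _ _ (by simp [hP]) j)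
          (hmem _ _ (by simp [hP]) j) (hmem _ _ (by simp [hP]) j)
      refine no_plane p m (by omega) (by omega) (by omega) u v (fun c s h0 => ?_)
        (fun j hj c s => ?_)
      · rw [← hρ] at h0
        have h3 : q c s = 0 := ρ.injective (by rw [h0, map_zero])
        have h4 := congrArg (fun z : E d => z 0) h3
        have h5 := congrArg (fun z : E d => z ⟨1, by omega⟩) h3
        simp only [hq, pt_zero, pt_one] at h4 h5
        exact ⟨by simpa using h4, by simpa using h5⟩
      · have h3 := hdiff ⟨0, hm⟩ c s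
        have h4 := hdiff ⟨j, hj⟩ c s
        have h5 : g p ((⟨0, hm⟩ : Fin m) : ℕ) (c • u + s • v) = 0 := by simp [g]
        have h6 : g p ((⟨j, hj⟩ : Fin m) : ℕ) (c • u + s • v) = g p j (c • u + s • v) := rfl
        linarith

end Pool.Agent.Lib.MP_01ee34_gt.Common
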